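import Pool.Agent.H224R2.Mah.Defs

/-!
# Symmetric Mahler conjecture, task A8: the push-forward of `(ΔS/(2m)) du` under `S`
-/

namespace Pool.Agent.H224R2.Mah

open MeasureTheory Set Filter Topology
open scoped ENNReal RealInnerProductSpace

namespace A8

theorem det_smul_one (c : ℂ) : (c • (1 : ℂ →L[ℝ] ℂ)).det = ‖c‖ ^ 2 := by
  have h : ((c • (1 : ℂ →L[ℝ] ℂ) : ℂ →L[ℝ] ℂ) : ℂ →ₗ[ℝ] ℂ) = Algebra.lmul ℝ ℂ c := by
    ext z
    simp
  unfold ContinuousLinearMap.det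
  rw [h, ← Algebra.norm_apply, Algebra.norm_complex_apply, Complex.normSq_eq_norm_sq]

/-- the substitution `s = r^(2m)` -/
theorem subst_pow {m : ℕ} (hm : 2 ≤ m) (f : ℝ → ℝ≥0∞) :
    ∫⁻ r in Ioo (0 : ℝ) 1, ENNReal.ofReal (2 * m * r ^ (2 * m - 1)) * f (r ^ (2 * m)) =
      ∫⁻ s in Ioo (0 : ℝ) 1, f s := by
  have himg : (fun r : ℝ => r ^ (2 * m)) '' Ioo (0 : ℝ) 1 = Ioo (0 : ℝ) 1 := by
    ext s
    constructor
    · rintro ⟨r, ⟨h0, h1⟩, rfl⟩
      exact ⟨by positivity, pow_lt_one₀ h0.le h1 (by omega)⟩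
    · rintro ⟨h0, h1⟩
      refine ⟨s ^ ((1 : ℝ) / (2 * m : ℕ)), ⟨by positivity, ?_⟩, ?_⟩
      · exact Real.rpow_lt_one h0.le h1 (by positivity)
      · have h2 : ((2 * m : ℕ) : ℝ) ≠ 0 := by
          have : 2 * m ≠ 0 := by omega
          exact_mod_cast this
        simp only
        rw [← Real.rpow_natCast, ← Real.rpow_mul h0.le, one_div, inv_mul_cancel₀ h2, Real.rpow_one]
  have hinj : InjOn (fun r : ℝ => r ^ (2 * m)) (Ioo (0 : ℝ) 1) := by
    intro a ha b hb h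
    exact (pow_left_inj₀ ha.1.le hb.1.le (by omega)).1 h
  have key := lintegral_image_eq_lintegral_abs_deriv_mul (f := fun r : ℝ => r ^ (2 * m))
    (f' := fun r : ℝ => ((2 * m : ℕ) : ℝ) * r ^ (2 * m - 1)) measurableSet_Ioo
    (fun x _ => (hasDerivAt_pow (2 * m) x).hasDerivWithinAt) hinj f
  rw [himg] at key
  rw [key]
  refine setLIntegral_congr_fun measurableSet_Ioo fun r hr => ?_
  have h3 : (0 : ℝ) ≤ ((2 * m : ℕ) : ℝ) * r ^ (2 * m - 1) := by
    have := hr.1.le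
    positivity
  rw [abs_of_nonneg h3]
  push_cast
  rfl

/-- radial integrals over the unit disc -/
theorem radial (φ : ℝ → ℝ≥0∞) (hφ : Measurable φ) :
    ∫⁻ z in Metric.ball (0 : ℂ) 1, φ ‖z‖ =
      ENNReal.ofReal (2 * Real.pi) * ∫⁻ r in Ioo (0 : ℝ) 1, ENNReal.ofReal r * φ r := by
  have hψ : Measurable ((Iio (1 : ℝ)).indicator φ) := hφ.indicator measurableSet_Iio
  have h1 : ∫⁻ z in Metric.ball (0 : ℂ) 1, φ ‖z‖ = ∫⁻ z : ℂ, (Iio (1 : ℝ)).indicator φ ‖z‖ := by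
    rw [← lintegral_indicator measurableSet_ball]
    refine lintegral_congr fun z => ?_
    by_cases hz : ‖z‖ < 1
    · rw [indicator_of_mem (by simpa using hz), indicator_of_mem (by exact hz)]
    · rw [indicator_of_notMem (by simpa using hz), indicator_of_notMem (by exact hz)]
  rw [h1, ← Complex.lintegral_comp_polarCoord_symm]
  have h2 : ∫⁻ p in polarCoord.target, ENNReal.ofReal p.1 •
      (Iio (1 : ℝ)).indicator φ ‖Complex.polarCoord.symm p‖ =
      ∫⁻ p in (Ioi (0 : ℝ)) ×ˢ (Ioo (-Real.pi) Real.pi),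
        ENNReal.ofReal p.1 * (Iio (1 : ℝ)).indicator φ p.1 := by
    refine setLIntegral_congr_fun polarCoord.open_target.measurableSet fun p hp => ?_
    have hp1 : 0 < p.1 := hp.1
    rw [Complex.norm_polarCoord_symm, abs_of_pos hp1, smul_eq_mul]
  have h3 : ∫⁻ p in (Ioi (0 : ℝ)) ×ˢ (Ioo (-Real.pi) Real.pi),
        ENNReal.ofReal p.1 * (Iio (1 : ℝ)).indicator φ p.1 =
      ∫⁻ r in Ioi (0 : ℝ), ∫⁻ _ in Ioo (-Real.pi) Real.pi,
        ENNReal.ofReal r * (Iio (1 : ℝ)).indicator φ r := by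
    rw [Measure.volume_eq_prod, ← Measure.prod_restrict, lintegral_prod]
    exact ((ENNReal.measurable_ofReal.comp measurable_fst).mul
      (hψ.comp measurable_fst)).aemeasurable
  have h4 : (volume (Ioo (-Real.pi) Real.pi) : ℝ≥0∞) = ENNReal.ofReal (2 * Real.pi) := by
    rw [Real.volume_Ioo]
    congr 1
    ring
  have h5 : ∫⁻ r in Ioi (0 : ℝ), ∫⁻ _ in Ioo (-Real.pi) Real.pi,
        ENNReal.ofReal r * (Iio (1 : ℝ)).indicator φ r =
      ENNReal.ofReal (2 * Real.pi) * ∫⁻ r in Ioi (0 : ℝ),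
        ENNReal.ofReal r * (Iio (1 : ℝ)).indicator φ r := by
    rw [← lintegral_const_mul]
    · refine lintegral_congr fun r => ?_
      rw [setLIntegral_const, h4, mul_comm]
    · exact ENNReal.measurable_ofReal.mul hψ
  have h6 : ∫⁻ r in Ioi (0 : ℝ), ENNReal.ofReal r * (Iio (1 : ℝ)).indicator φ r =
      ∫⁻ r in Ioo (0 : ℝ) 1, ENNReal.ofReal r * φ r := by
    rw [← lintegral_indicator measurableSet_Ioi, ← lintegral_indicator measurableSet_Ioo]
    refine lintegral_congr fun r => ?_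
    by_cases h0 : 0 < r
    · by_cases h1 : r < 1
      · rw [indicator_of_mem (by exact h0), indicator_of_mem (by exact h1),
          indicator_of_mem (by exact ⟨h0, h1⟩)]
      · rw [indicator_of_mem (by exact h0), indicator_of_notMem (by exact h1),
          indicator_of_notMem (by exact fun h => h1 h.2), mul_zero]
    · rw [indicator_of_notMem (by exact h0), indicator_of_notMem (by exact fun h => h0 h.1)]
  refine (h2.trans ?_)
  rw [h3, h5, h6]

end A8

/-- A8. Push-forward of `(ΔS/(2m)) du` under `S` is `2π` times Lebesgue on `(0,1)`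
(change of variables `u = U(ζ)`, polar coordinates). -/
theorem A8_push_of
    (A1_deriv : ∀ {ζ : ℂ}, ‖ζ‖ < 1 → HasDerivAt U (U' ζ) ζ)
    (A2_inj : (∀ ζ : ℂ, ‖ζ‖ < 1 → 0 < (U' ζ).re) ∧ InjOn U (Metric.ball 0 1))
    (A4_inverse : ∀ ζ : ℂ, ‖ζ‖ < 1 → U ζ ∈ PP ∧ hh (U ζ) = ζ)
    (A5_lap : ∀ {m : ℕ}, 2 ≤ m → ∀ u ∈ PP,
      lap (SS m) u = (2 * m) ^ 2 * ‖hh u‖ ^ (2 * m - 2) * ‖(U' (hh u))⁻¹‖ ^ 2)
    {m : ℕ} (hm : 2 ≤ m) (f : ℝ → ℝ≥0∞) (hf : Measurable f) :
    ∫⁻ u in PP, f (SS m u) * ENNReal.ofReal (lap (SS m) u / (2 * m)) =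
      ENNReal.ofReal (2 * Real.pi) * ∫⁻ s in Ioo (0 : ℝ) 1, f s := by
  have h1 : ∫⁻ u in PP, f (SS m u) * ENNReal.ofReal (lap (SS m) u / (2 * m)) =
      ∫⁻ z in Metric.ball (0 : ℂ) 1, ENNReal.ofReal |((U' z) • (1 : ℂ →L[ℝ] ℂ)).det| *
        (f (SS m (U z)) * ENNReal.ofReal (lap (SS m) (U z) / (2 * m))) := by
    unfold PP
    exact lintegral_image_eq_lintegral_abs_det_fderiv_mul volume measurableSet_ball
      (fun z hz => ((A1_deriv (by simpa using hz)).complexToReal_fderiv).hasFDerivWithinAt)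
      A2_inj.2 _
  have h2 : ∫⁻ z in Metric.ball (0 : ℂ) 1, ENNReal.ofReal |((U' z) • (1 : ℂ →L[ℝ] ℂ)).det| *
        (f (SS m (U z)) * ENNReal.ofReal (lap (SS m) (U z) / (2 * m))) =
      ∫⁻ z in Metric.ball (0 : ℂ) 1,
        (fun r : ℝ => f (r ^ (2 * m)) * ENNReal.ofReal (2 * m * r ^ (2 * m - 2))) ‖z‖ := by
    refine setLIntegral_congr_fun measurableSet_ball fun z hz => ?_
    have hz' : ‖z‖ < 1 := by simpa using hz
    obtain ⟨hP, hh'⟩ := A4_inverse z hz'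
    have hne : U' z ≠ 0 := by
      intro h
      have := A2_inj.1 z hz'
      rw [h] at this
      simp at this
    have hn : ‖U' z‖ ≠ 0 := norm_ne_zero_iff.2 hne
    simp only
    rw [A8.det_smul_one, abs_of_nonneg (by positivity), A5_lap hm _ hP, hh']
    unfold SS
    rw [hh']
    rw [mul_left_comm, ← ENNReal.ofReal_mul (by positivity)]
    congr 2
    rw [norm_inv]
    have hm0 : (m : ℝ) ≠ 0 := by
      have : m ≠ 0 := by omega
      exact_mod_cast this
    field_simp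
  rw [h1, h2, A8.radial (fun r : ℝ => f (r ^ (2 * m)) * ENNReal.ofReal (2 * m * r ^ (2 * m - 2)))]
  · congr 1
    rw [← A8.subst_pow hm f]
    refine setLIntegral_congr_fun measurableSet_Ioo fun r hr => ?_
    have hr0 := hr.1
    rw [mul_left_comm, ← ENNReal.ofReal_mul hr0.le, mul_comm]
    congr 2
    have : 2 * m - 1 = (2 * m - 2) + 1 := by omega
    rw [this, pow_succ]
    ring
  · refine (hf.comp (measurable_id.pow_const _)).mul ?_
    exact ENNReal.measurable_ofReal.comp ((measurable_id.pow_const _).const_mul _)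

end Pool.Agent.H224R2.Mah
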