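import Pool.Agent.H298R2.Mah.A8_push

/-!
# Symmetric Mahler conjecture, task A9: `∫_P |∂_x S m| → 4`

Change of variables `u = U(ζ)`, polar coordinates and the substitution `s = r^(2m)` give
`∫_P |∂_x S m| = (8/π²) ∫_{-π}^{π} ∫_0^1 |Re arctan (s^(1/(2m)) e^{iθ})| ds dθ`, and
`|Re arctan (e^{iθ})| = π/4` for almost all `θ`.
-/

namespace Pool.Agent.H224R2.Mah

open MeasureTheory Set Filter Topology
open scoped ENNReal RealInnerProductSpace

namespace A9

theorem re_arctan (z : ℂ) : (Complex.arctan z).re =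
    Complex.arg ((1 + z * Complex.I) / (1 - z * Complex.I)) / 2 := by
  unfold Complex.arctan
  have h : (-Complex.I / 2 * Complex.log ((1 + z * Complex.I) / (1 - z * Complex.I))).re =
      (Complex.log ((1 + z * Complex.I) / (1 - z * Complex.I))).im / 2 := by
    have : -Complex.I / 2 = ((0 : ℝ) : ℂ) + ((-1 / 2 : ℝ) : ℂ) * Complex.I := by
      push_cast
      ring
    rw [this, Complex.mul_re]
    simp
    ring
  rw [h, Complex.log_im]

theorem abs_re_arctan_le (z : ℂ) : |(Complex.arctan z).re| ≤ Real.pi / 2 := by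
  rw [re_arctan, abs_div, abs_two]
  exact div_le_div_of_nonneg_right (Complex.abs_arg_le_pi _) (by norm_num)

theorem measurable_arctan : Measurable Complex.arctan := by
  unfold Complex.arctan
  exact measurable_const.mul (Complex.measurable_log.comp
    ((measurable_const.add (measurable_id.mul_const _)).div
      (measurable_const.sub (measurable_id.mul_const _))))

/-- `|Re arctan z| = π/4` on the unit circle, and `|Re arctan|` is continuous there off `±i`. -/
theorem tendsto_arctan (z : ℂ) (hz : ‖z‖ = 1) (hre : z.re ≠ 0) :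
    Tendsto (fun w : ℂ => |(Complex.arctan w).re|) (𝓝 z) (𝓝 (Real.pi / 4)) := by
  have hN : z.re ^ 2 + z.im ^ 2 = 1 := by
    have h := Complex.sq_norm z
    rw [hz, Complex.normSq_apply] at h
    nlinarith
  have hne : (1 : ℂ) - z * Complex.I ≠ 0 := by
    intro h
    have h1 := congrArg Complex.im h
    simp at h1
    exact hre h1
  have hNpos : 0 < Complex.normSq (1 - z * Complex.I) := Complex.normSq_pos.2 hne
  have hwre : ((1 + z * Complex.I) / (1 - z * Complex.I)).re = 0 := by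
    rw [Complex.div_re]
    simp only [Complex.add_re, Complex.one_re, Complex.mul_re, Complex.I_re, mul_zero,
      Complex.I_im, mul_one, zero_sub, Complex.sub_re, Complex.add_im, Complex.one_im,
      Complex.mul_im, zero_add, Complex.sub_im, add_zero, sub_neg_eq_add]
    rw [← add_div]
    have : (1 + -z.im) * (1 + z.im) + z.re * -z.re = 0 := by nlinarith
    rw [this, zero_div]
  have hwim : ((1 + z * Complex.I) / (1 - z * Complex.I)).im =
      2 * z.re / Complex.normSq (1 - z * Complex.I) := by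
    rw [Complex.div_im]
    simp only [Complex.add_re, Complex.one_re, Complex.mul_re, Complex.I_re, mul_zero,
      Complex.I_im, mul_one, zero_sub, Complex.sub_re, Complex.add_im, Complex.one_im,
      Complex.mul_im, zero_add, Complex.sub_im, add_zero, sub_neg_eq_add]
    rw [← sub_div]
    congr 1
    ring
  set w₀ := (1 + z * Complex.I) / (1 - z * Complex.I) with hw₀
  have hwim' : w₀.im ≠ 0 := by
    rw [hwim]
    exact div_ne_zero (mul_ne_zero two_ne_zero hre) hNpos.ne'
  have hslit : w₀ ∈ Complex.slitPlane := Complex.mem_slitPlane_iff.2 (Or.inr hwim')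
  have hcont : ContinuousAt (fun w : ℂ => |(Complex.arctan w).re|) z := by
    have h1 : (fun w : ℂ => |(Complex.arctan w).re|) = fun w : ℂ =>
        |Complex.arg ((1 + w * Complex.I) / (1 - w * Complex.I)) / 2| := by
      funext w
      rw [re_arctan]
    rw [h1]
    have h2 : ContinuousAt (fun w : ℂ => (1 + w * Complex.I) / (1 - w * Complex.I)) z :=
      ContinuousAt.div (by fun_prop) (by fun_prop) hne
    have h3 : ContinuousAt Complex.arg ((1 + z * Complex.I) / (1 - z * Complex.I)) :=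
      Complex.continuousAt_arg hslit
    have h4 : ContinuousAt (fun w : ℂ => Complex.arg ((1 + w * Complex.I) / (1 - w * Complex.I))) z :=
      ContinuousAt.comp (f := fun w : ℂ => (1 + w * Complex.I) / (1 - w * Complex.I)) h3 h2
    exact (h4.div_const 2).abs
  have hval : |(Complex.arctan z).re| = Real.pi / 4 := by
    rw [re_arctan, ← hw₀]
    have hπ := Real.pi_pos
    rcases lt_or_gt_of_ne hwim' with h | h
    · rw [Complex.arg_eq_neg_pi_div_two_iff.2 ⟨hwre, h⟩]
      rw [abs_of_neg (by linarith)]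
      ring
    · rw [Complex.arg_eq_pi_div_two_iff.2 ⟨hwre, h⟩]
      rw [abs_of_pos (by linarith)]
      ring
  rw [← hval]
  exact hcont

/-- the integrand after the substitutions -/
noncomputable def Psi (m : ℕ) (p : ℝ × ℝ) : ℝ≥0∞ :=
  ENNReal.ofReal (8 / Real.pi ^ 2 *
    |(Complex.arctan (((p.1 ^ ((1 : ℝ) / (2 * m : ℕ)) : ℝ) : ℂ) *
      (Real.cos p.2 + Real.sin p.2 * Complex.I))).re|)

theorem measurable_Psi (m : ℕ) : Measurable (Psi m) := by
  unfold Psi
  refine ENNReal.measurable_ofReal.comp (Measurable.const_mul ?_ _)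
  refine (Complex.measurable_re.comp (measurable_arctan.comp ?_)).abs
  refine (Complex.measurable_ofReal.comp (measurable_fst.pow_const _)).mul ?_
  refine (Complex.measurable_ofReal.comp (Real.measurable_cos.comp measurable_snd)).add ?_
  exact (Complex.measurable_ofReal.comp (Real.measurable_sin.comp measurable_snd)).mul_const _

/-- the limit of the double integrals -/
theorem tendsto_Psi : Tendsto (fun m : ℕ =>
    ∫⁻ p, Psi m p ∂((volume.restrict (Ioo (0 : ℝ) 1)).prod
      (volume.restrict (Ioo (-Real.pi) Real.pi)))) atTop (𝓝 4) := by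
  have hπ := Real.pi_pos
  set μ : Measure (ℝ × ℝ) := (volume.restrict (Ioo (0 : ℝ) 1)).prod
      (volume.restrict (Ioo (-Real.pi) Real.pi)) with hμ
  have hμuniv : μ univ = ENNReal.ofReal (2 * Real.pi) := by
    rw [hμ, ← univ_prod_univ, Measure.prod_prod]
    simp only [Measure.restrict_apply_univ, Real.volume_Ioo]
    rw [← ENNReal.ofReal_mul (by norm_num)]
    congr 1
    ring
  have hlim : ∫⁻ _, ENNReal.ofReal (8 / Real.pi ^ 2 * (Real.pi / 4)) ∂μ = 4 := by
    rw [lintegral_const, hμuniv, ← ENNReal.ofReal_mul (by positivity)]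
    have : 8 / Real.pi ^ 2 * (Real.pi / 4) * (2 * Real.pi) = 4 := by
      field_simp
      ring
    rw [this]
    norm_num
  rw [← hlim]
  refine tendsto_lintegral_of_dominated_convergence
    (fun _ => ENNReal.ofReal (8 / Real.pi ^ 2 * (Real.pi / 2))) (fun m => measurable_Psi m) ?_ ?_ ?_
  · intro m
    refine Eventually.of_forall fun p => ?_
    unfold Psi
    exact ENNReal.ofReal_le_ofReal (mul_le_mul_of_nonneg_left (abs_re_arctan_le _) (by positivity))
  · rw [lintegral_const, hμuniv]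
    exact ENNReal.mul_ne_top ENNReal.ofReal_ne_top ENNReal.ofReal_ne_top
  · have hae : ∀ᵐ p ∂μ, 0 < p.1 ∧ Real.cos p.2 ≠ 0 := by
      have h1 : ∀ᵐ x ∂(volume.restrict (Ioo (0 : ℝ) 1)), 0 < x :=
        (ae_restrict_iff' measurableSet_Ioo).2 (Eventually.of_forall fun x hx => hx.1)
      have h2 : ∀ᵐ x ∂(volume.restrict (Ioo (-Real.pi) Real.pi)), Real.cos x ≠ 0 := by
        refine ae_restrict_of_ae ?_
        have h3 : {x : ℝ | ¬ Real.cos x ≠ 0} ⊆
            Set.range (fun k : ℤ => (2 * (k : ℝ) + 1) * Real.pi / 2) := by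
          intro x hx
          simp only [ne_eq, not_not, mem_ofPred_eq] at hx
          obtain ⟨k, hk⟩ := Real.cos_eq_zero_iff.1 hx
          exact ⟨k, hk.symm⟩
        exact measure_mono_null h3 ((Set.countable_range _).measure_zero _)
      rw [hμ]
      exact (Measure.ae_prod_iff_ae_ae (by
        refine MeasurableSet.inter ?_ ?_
        · exact measurableSet_lt measurable_const measurable_fst
        · exact (measurableSet_eq_fun (Real.measurable_cos.comp measurable_snd)
            measurable_const).compl)).2 (by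
        filter_upwards [h1] with x hx
        filter_upwards [h2] with y hy
        exact ⟨hx, hy⟩)
    filter_upwards [hae] with p hp
    obtain ⟨hp0, hp1⟩ := hp
    unfold Psi
    refine ENNReal.tendsto_ofReal (Tendsto.const_mul _ ?_)
    set e : ℂ := (Real.cos p.2 + Real.sin p.2 * Complex.I) with he
    have hen : ‖e‖ = 1 := by
      rw [he, Complex.ofReal_cos, Complex.ofReal_sin, Complex.norm_cos_add_sin_mul_I]
    have here : e.re ≠ 0 := by
      have h10 : e.re = Real.cos p.2 := by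
        rw [he, Complex.add_re, Complex.ofReal_re, Complex.mul_re, Complex.ofReal_re,
          Complex.ofReal_im, Complex.I_re, Complex.I_im]
        ring
      rw [h10]
      exact hp1
    have h3 : Tendsto (fun m : ℕ => p.1 ^ ((1 : ℝ) / (2 * m : ℕ))) atTop (𝓝 1) := by
      have h4 : Tendsto (fun m : ℕ => (1 : ℝ) / (2 * m : ℕ)) atTop (𝓝 0) := by
        have h5 : Tendsto (fun m : ℕ => 2 * m) atTop atTop :=
          tendsto_id.const_mul_atTop' (by norm_num)
        exact (tendsto_const_div_atTop_nhds_zero_nat (1 : ℝ)).comp h5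
      have h6 := (Real.continuousAt_const_rpow (b := (0 : ℝ)) hp0.ne').tendsto.comp h4
      rw [Real.rpow_zero] at h6
      exact h6
    have h7 : Tendsto (fun m : ℕ => ((p.1 ^ ((1 : ℝ) / (2 * m : ℕ)) : ℝ) : ℂ) * e) atTop (𝓝 e) := by
      have h8 : Tendsto (fun m : ℕ => ((p.1 ^ ((1 : ℝ) / (2 * m : ℕ)) : ℝ) : ℂ)) atTop
          (𝓝 ((1 : ℝ) : ℂ)) := (Complex.continuous_ofReal.tendsto 1).comp h3
      have h9 := h8.mul_const e
      simpa using h9
    exact (tendsto_arctan e hen here).comp h7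

/-- polar coordinates and the substitution `s = r^(2m)` -/
theorem polar {m : ℕ} (hm : 2 ≤ m) :
    ∫⁻ z in Metric.ball (0 : ℂ) 1, ENNReal.ofReal (2 * m * ‖z‖ ^ (2 * m - 2) *
      (8 / Real.pi ^ 2 * |(Complex.arctan z).re|)) =
    ∫⁻ p, Psi m p ∂((volume.restrict (Ioo (0 : ℝ) 1)).prod
      (volume.restrict (Ioo (-Real.pi) Real.pi))) := by
  have hπ := Real.pi_pos
  set F : ℂ → ℝ≥0∞ := fun z => ENNReal.ofReal (2 * m * ‖z‖ ^ (2 * m - 2) *
      (8 / Real.pi ^ 2 * |(Complex.arctan z).re|)) with hF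
  have hFm : Measurable F := by
    rw [hF]
    refine ENNReal.measurable_ofReal.comp (Measurable.mul ?_ ?_)
    · exact (measurable_norm.pow_const _).const_mul _
    · exact ((Complex.measurable_re.comp measurable_arctan).abs).const_mul _
  set E0 : ℝ × ℝ → ℂ := fun p => (p.1 : ℂ) * (Real.cos p.2 + Real.sin p.2 * Complex.I) with hE0
  have hE0m : Measurable E0 := by
    rw [hE0]
    refine (Complex.measurable_ofReal.comp measurable_fst).mul ?_
    refine (Complex.measurable_ofReal.comp (Real.measurable_cos.comp measurable_snd)).add ?_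
    exact (Complex.measurable_ofReal.comp (Real.measurable_sin.comp measurable_snd)).mul_const _
  have hE0n : ∀ p : ℝ × ℝ, 0 < p.1 → ‖E0 p‖ = p.1 := by
    intro p hp
    rw [hE0]
    simp only
    rw [norm_mul, Complex.ofReal_cos, Complex.ofReal_sin, Complex.norm_cos_add_sin_mul_I,
      mul_one, Complex.norm_real, Real.norm_of_nonneg hp.le]
  -- polar coordinates
  have h1 : ∫⁻ z in Metric.ball (0 : ℂ) 1, F z =
      ∫⁻ z : ℂ, (Metric.ball (0 : ℂ) 1).indicator F z := by
    rw [lintegral_indicator measurableSet_ball]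
  have h2 : ∫⁻ z : ℂ, (Metric.ball (0 : ℂ) 1).indicator F z =
      ∫⁻ p in (Ioi (0 : ℝ)) ×ˢ (Ioo (-Real.pi) Real.pi),
        ENNReal.ofReal p.1 * (Metric.ball (0 : ℂ) 1).indicator F (E0 p) := by
    rw [← Complex.lintegral_comp_polarCoord_symm]
    refine setLIntegral_congr_fun polarCoord.open_target.measurableSet fun p _ => ?_
    rw [Complex.polarCoord_symm_apply, smul_eq_mul]
  have h3 : ∫⁻ p in (Ioi (0 : ℝ)) ×ˢ (Ioo (-Real.pi) Real.pi),
        ENNReal.ofReal p.1 * (Metric.ball (0 : ℂ) 1).indicator F (E0 p) =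
      ∫⁻ p in (Ioo (0 : ℝ) 1) ×ˢ (Ioo (-Real.pi) Real.pi), ENNReal.ofReal p.1 * F (E0 p) := by
    rw [← lintegral_indicator (measurableSet_Ioi.prod measurableSet_Ioo),
      ← lintegral_indicator (measurableSet_Ioo.prod measurableSet_Ioo)]
    refine lintegral_congr fun p => ?_
    by_cases hp : p ∈ (Ioi (0 : ℝ)) ×ˢ (Ioo (-Real.pi) Real.pi)
    · rw [indicator_of_mem hp]
      have hp0 : 0 < p.1 := hp.1
      by_cases hp1 : p.1 < 1
      · have hb : E0 p ∈ Metric.ball (0 : ℂ) 1 := by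
          rw [mem_ball_zero_iff, hE0n p hp0]
          exact hp1
        rw [indicator_of_mem hb, indicator_of_mem (show p ∈ (Ioo (0 : ℝ) 1) ×ˢ
          (Ioo (-Real.pi) Real.pi) from ⟨⟨hp0, hp1⟩, hp.2⟩)]
      · have hb : E0 p ∉ Metric.ball (0 : ℂ) 1 := by
          rw [mem_ball_zero_iff, hE0n p hp0]
          exact hp1
        rw [indicator_of_notMem hb, indicator_of_notMem (fun h => hp1 h.1.2), mul_zero]
    · rw [indicator_of_notMem hp, indicator_of_notMem (fun h => hp ⟨h.1.1, h.2⟩)]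
  have hmeas : Measurable fun p : ℝ × ℝ => ENNReal.ofReal p.1 * F (E0 p) :=
    (ENNReal.measurable_ofReal.comp measurable_fst).mul (hFm.comp hE0m)
  rw [h1, h2, h3, Measure.volume_eq_prod, ← Measure.prod_restrict,
    lintegral_prod_symm _ hmeas.aemeasurable, lintegral_prod_symm _ (measurable_Psi m).aemeasurable]
  refine lintegral_congr fun θ => ?_
  -- substitution
  have h4 := A8.subst_pow hm (fun s => Psi m (s, θ))
  rw [← h4]
  refine setLIntegral_congr_fun measurableSet_Ioo fun r hr => ?_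
  have hr0 : 0 < r := hr.1
  unfold Psi
  have h5 : (r ^ (2 * m)) ^ ((1 : ℝ) / (2 * m : ℕ)) = r := by
    have h6 : ((2 * m : ℕ) : ℝ) ≠ 0 := by
      have : 2 * m ≠ 0 := by omega
      exact_mod_cast this
    rw [← Real.rpow_natCast, ← Real.rpow_mul hr0.le, mul_one_div, div_self h6, Real.rpow_one]
  simp only
  rw [h5, hF]
  simp only
  rw [hE0n (r, θ) hr0, ← ENNReal.ofReal_mul hr0.le, ← ENNReal.ofReal_mul (by positivity)]
  congr 1
  have h7 : 2 * m - 1 = (2 * m - 2) + 1 := by omega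
  rw [h7, pow_succ]
  simp only [hE0]
  ring

end A9

/-- A9. `∫_P |∂_x S m| → 4`. -/
theorem A9_dx_int_of
    (A1_deriv : ∀ {ζ : ℂ}, ‖ζ‖ < 1 → HasDerivAt U (U' ζ) ζ)
    (A1_arctan : ∀ {ζ : ℂ}, ‖ζ‖ < 1 →
      ζ * U' ζ = ((8 / Real.pi ^ 2 : ℝ) : ℂ) * Complex.arctan ζ)
    (A2_inj : (∀ ζ : ℂ, ‖ζ‖ < 1 → 0 < (U' ζ).re) ∧ InjOn U (Metric.ball 0 1))
    (A4_inverse : ∀ ζ : ℂ, ‖ζ‖ < 1 → U ζ ∈ PP ∧ hh (U ζ) = ζ)
    (A5_dx : ∀ {m : ℕ}, 2 ≤ m → ∀ u ∈ PP, dx (SS m) u =
      2 * m * ‖hh u‖ ^ (2 * m - 2) * ((starRingEnd ℂ) (hh u) * (U' (hh u))⁻¹).re) :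
    Tendsto (fun m : ℕ => ∫⁻ u in PP, ENNReal.ofReal |dx (SS m) u|) atTop (𝓝 4) := by
  refine A9.tendsto_Psi.congr' ?_
  filter_upwards [eventually_ge_atTop 2] with m hm
  rw [← A9.polar hm]
  have h1 : ∫⁻ u in PP, ENNReal.ofReal |dx (SS m) u| =
      ∫⁻ z in Metric.ball (0 : ℂ) 1, ENNReal.ofReal |((U' z) • (1 : ℂ →L[ℝ] ℂ)).det| *
        ENNReal.ofReal |dx (SS m) (U z)| := by
    unfold PP
    exact lintegral_image_eq_lintegral_abs_det_fderiv_mul volume measurableSet_ball
      (fun z hz => ((A1_deriv (by simpa using hz)).complexToReal_fderiv).hasFDerivWithinAt)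
      A2_inj.2 _
  rw [h1]
  refine setLIntegral_congr_fun measurableSet_ball fun z hz => ?_
  have hz' : ‖z‖ < 1 := by simpa using hz
  obtain ⟨hP, hh'⟩ := A4_inverse z hz'
  have hne : U' z ≠ 0 := by
    intro h
    have := A2_inj.1 z hz'
    rw [h] at this
    simp at this
  have hn : 0 < ‖U' z‖ := norm_pos_iff.2 hne
  have hsq0 : (0 : ℝ) ≤ ‖U' z‖ ^ 2 := by positivity
  rw [A8.det_smul_one, abs_of_nonneg hsq0, A5_dx hm _ hP, hh', ← ENNReal.ofReal_mul hsq0]
  congr 1
  -- `Re (conj z / U') ‖U'‖² = Re (z U')`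
  have h2 : ‖U' z‖ ^ 2 * ((starRingEnd ℂ) z * (U' z)⁻¹).re = (z * U' z).re := by
    have h3 : (U' z)⁻¹ = (starRingEnd ℂ) (U' z) * ((‖U' z‖ ^ 2 : ℝ) : ℂ)⁻¹ := by
      rw [Complex.inv_def, Complex.normSq_eq_norm_sq, Complex.ofReal_inv]
    rw [h3, ← mul_assoc, ← map_mul, ← Complex.ofReal_inv, Complex.re_mul_ofReal, Complex.conj_re]
    field_simp
  have h4 : (z * U' z).re = 8 / Real.pi ^ 2 * (Complex.arctan z).re := by
    rw [A1_arctan hz', Complex.re_ofReal_mul]
  rw [abs_mul, abs_of_nonneg (show (0 : ℝ) ≤ 2 * m * ‖z‖ ^ (2 * m - 2) by positivity)]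
  have h5 : ‖U' z‖ ^ 2 * |((starRingEnd ℂ) z * (U' z)⁻¹).re| =
      8 / Real.pi ^ 2 * |(Complex.arctan z).re| := by
    have h6 : ‖U' z‖ ^ 2 * |((starRingEnd ℂ) z * (U' z)⁻¹).re| =
        |‖U' z‖ ^ 2 * ((starRingEnd ℂ) z * (U' z)⁻¹).re| := by
      rw [abs_mul, abs_of_nonneg (show (0 : ℝ) ≤ ‖U' z‖ ^ 2 by positivity)]
    rw [h6, h2, h4, abs_mul, abs_of_nonneg (show (0 : ℝ) ≤ 8 / Real.pi ^ 2 by positivity)]
  rw [← h5]
  ring

end Pool.Agent.H224R2.Mah
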